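import Pool.Agent.H986R2.KSat.Small

open Filter Topology Pool.Agent.H986R2.KSat

namespace Pool.Agent.Results.MP_41c404_pr.LimMaximal

/-- For every `k ≥ 100` there is a density `D` above the satisfiability threshold `d_k` at which
`E[X_i]` is exponentially large for every `i`; the critical densities `d_k^{(i)}` converge as
`i → ∞` to a limit `L ≥ D > d_k`. So `d_k = lim d_k^{(i)}` is false. The first two conjuncts say
that the suprema defining `d_k` and `d_k^{(i)}` are suprema of nonempty bounded sets, the third one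
that a density separating `exponentially large` from `exponentially small` is `d_k^{(i)}`. -/
theorem result (k : ℕ) (hk : 100 ≤ k) :
    IsLUB {d : ℝ | 0 < d ∧ Tendsto (fun n : ℕ => probSat k n ⌊d * n⌋₊) atTop (𝓝 1)} (dSat k) ∧
    (∀ i : ℕ, IsLUB {d : ℝ | 0 < d ∧ ExpLarge k i d} (dCrit k i)) ∧
    (∀ (i : ℕ) (t : ℝ), IsCriticalDensity k i t → t = dCrit k i) ∧
    ∃ D L : ℝ, dSat k < D ∧ D ≤ L ∧ (∀ i : ℕ, ExpLarge k i D) ∧
      Tendsto (fun i : ℕ => dCrit k i) atTop (𝓝 L) := by
  obtain ⟨D, L, h1, h2, h3, h4, h5⟩ := main k hk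
  exact ⟨dSat_isLUB k (by omega), dCrit_isLUB k hk, h5, D, L, h1, h2, h3, h4⟩

end Pool.Agent.Results.MP_41c404_pr.LimMaximal
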